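import Pool.Agent.R537.IP.Mem

/-!
# The existence of an isolated point of a semialgebraic set is `∃∀ℝ`-complete

Sketch of the hardness proof.

*Game.*  The negation of a sentence `∃ x ∀ y, φ` is brought to a compact normal form
`∀ x ∈ [-2,2]^n ∃ w ∈ [-1/2,1/2]^m, H(x, w) ≤ 0` with a polynomial `H` (large powers being
written by repeated squaring); if it fails, then the value of the game is at least
`δ = 2^(-2^k)`: some `x` has `H(x, w) ≥ δ` for all `w` in the cube `[-1,1]^m`.

*Isolated critical points.*  Let `g = H + barriers + ε · perturbation`, where the barriers are
high powers, and the perturbation is a combination of the coordinates of `x` and of powers of
linear forms in `w` with integral coefficients of polynomially many binary digits.  If the value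
is positive, then the point `x` with the greatest minimum of `g(x, ·)` is inside the cube, and by
Carathéodory's theorem it satisfies, for at most `n + 1` minimum points `w₀, …, w_k`, the system
`∂g/∂w(x, w_i) = 0`, `g(x, w_i) = g(x, w_0)`, `∑ λ_i ∂g/∂x(x, w_i) = 0`, `∑ λ_i = 1`.  By Sard's
theorem (a parametric version for polynomials, with the powers of the linear forms separating the
points `w_i`) and an effective elimination argument, for some values of the coefficients this
system has only nondegenerate solutions with distinct `w_i`, hence the solution is isolated.

*The set.*  Its points consist of the binary digits of the coefficients, of a solution
`(x, w, λ)` of the system (with marks for the unused `w_i`), of the coordinates for repeated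
squaring, and of a point of the cone over the set of the violations
`{u ∈ [-1/2,1/2]^m : H(x, u) ≤ 0}`.  If there are violations for every `x`, then no point of the
set is isolated, since one can move along the generators of the cone.  Otherwise the solution
found above, together with the vertex of the cone, is an isolated point.
-/

namespace Pool.Agent.Results.MP_47d501_lc.IsolatedPointComplete

open Pool.Agent.NPC Pool.Agent.NPC.ER Pool.Agent.NPC.R537IP

/-- It is `∃∀ℝ`-complete under polynomial-time many-one reductions to decide whether a
semialgebraic set has an isolated point. -/
theorem result : EARComplete (lang IsolatedPointExistence) := isolated_complete

end Pool.Agent.Results.MP_47d501_lc.IsolatedPointComplete
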